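import Pool.Agent.J6H71.MuS.StmA
import Pool.Agent.J6H14.DMu.Tot

/-!
# The inertia groups above `p` surject onto the Galois groups of the cyclotomic fields

Module MUX-2 of helper71 (MP_b78433_nt).
-/

set_option autoImplicit false

namespace Pool.Agent.J6H94.MuS

open IntermediateField Module Pool.Agent.Q60.MU Pool.Agent.W5h77.MB NumberField
open Pool.Agent.J6H71.MuS Pool.Agent.J6H14.DMu
open scoped Pointwise

theorem inertia_surj' : InertiaT := by
  intro p hp N A hA x
  have hfp : Fact p.Prime := ⟨hp⟩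
  obtain ⟨hfd, ζ, hζ, hres⟩ := cy_int (p := p) N
  have hR𝕃 : cyc p N ≤ adjoin ℚ {z : Qb | z ^ p ^ (N + 1) = 1} := by
    unfold cyc
    rw [adjoin_le_iff]
    intro z hz
    apply subset_adjoin ℚ
    show z ^ p ^ (N + 1) = 1
    rw [pow_succ, pow_mul, show z ^ p ^ N = 1 from hz, one_pow]
  have hAint : ∀ a : ℤ, algebraMap ℤ Qb a ∈ A := fun a => integral_mem A (by
    exact isIntegral_algebraMap)
  have hne : A.comap (algebraMap ℚ Qb) ≠ ⊤ := by
    intro htop
    have h2 : ((p : ℚ))⁻¹ ∈ A.comap (algebraMap ℚ Qb) := by rw [htop]; trivial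
    rw [ValuationSubring.mem_comap, map_inv₀, map_natCast] at h2
    rw [ValuationSubring.mem_nonunits_iff_or] at hA
    rcases hA with h3 | h3
    · exact hp.ne_zero (by exact_mod_cast h3)
    · exact h3 h2
  obtain ⟨θ, h1, h2, h3⟩ := inertia_of_triv (K := ℚ) (A := ℤ) A hAint hne
    (adjoin ℚ {z : Qb | z ^ p ^ (N + 1) = 1}) x⁻¹ (by
    intro r hr hint
    obtain ⟨n, c, hc, hrc⟩ := hres r hr hint
    have hgc : A.valuation (x⁻¹ c) ≤ 1 := (A.valuation_le_one_iff _).2
      (integral_mem A (hc.map ((x⁻¹).restrictScalars ℤ : Qb →ₐ[ℤ] Qb)))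
    have hcA : A.valuation c ≤ 1 := (A.valuation_le_one_iff _).2 (integral_mem A hc)
    have h4 : r = n + (ζ - 1) * c := by rw [← hrc]; ring
    have h5 : x⁻¹ r - r = (x⁻¹ ζ - 1) * x⁻¹ c - (ζ - 1) * c := by
      rw [h4, map_add, map_intCast, map_mul, map_sub, map_one]
      ring
    have h6 : A.valuation (x⁻¹ ζ - 1) < 1 := root_sub_one hp hA (by
      rw [← map_pow, hζ, map_one])
    have h7 : A.valuation (ζ - 1) < 1 := root_sub_one hp hA hζ
    rw [h5]
    refine (Valuation.map_sub _ _ _).trans_lt (max_lt ?_ ?_)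
    · rw [map_mul]
      exact mul_lt_one_of_lt_of_le h6 hgc
    · rw [map_mul]
      exact mul_lt_one_of_lt_of_le h7 hcA)
  have hθ : θ ∈ inertia A := by
    refine ⟨?_, ?_⟩
    · exact stab_iff.1 fun z => (h1 z).symm
    · intro y hy
      exact (ValuationSubring.mem_nonunits_iff A).2 (h2 y hy)
  refine ⟨θ⁻¹, inv_mem hθ, ?_⟩
  rw [IntermediateField.mem_fixingSubgroup_iff]
  intro z hz
  rw [inv_inv]
  show x (θ z) = z
  rw [h3 z (hR𝕃 hz)]
  show (x * x⁻¹) z = z
  rw [mul_inv_cancel]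
  rfl

theorem inertia_surj (_ : OnePrimeT) : InertiaT := inertia_surj'

end Pool.Agent.J6H94.MuS
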